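import Pool.Agent.H23.GW.Targets

/-!
# Module MA: the main inequality
-/

set_option autoImplicit false

open Finset
open scoped Classical

namespace Pool.Agent.H24.GW

open Pool.Agent.H23.GW

noncomputable section

/-! ### Cauchy-Schwarz for a group action -/

theorem comb {Γ X : Type} [Group Γ] [Fintype Γ] [Fintype X] [MulAction Γ X] (B R : Finset X)
    (h : ∀ (t : Γ) (x : X), t • x ∈ B → x ∈ R) :
    (Fintype.card Γ : ℝ) * (#B : ℝ) ^ 2 ≤ #R * ∑ t : Γ, (#{x ∈ B | t • x ∈ B} : ℝ) := by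
  set a : X → ℝ := fun x => ∑ t : Γ, if t • x ∈ B then (1 : ℝ) else 0 with ha
  -- total sum
  have h1 : ∑ x : X, a x = (Fintype.card Γ : ℝ) * #B := by
    simp only [ha]
    rw [Finset.sum_comm]
    have : ∀ t : Γ, ∑ x : X, (if t • x ∈ B then (1 : ℝ) else 0) = #B := by
      intro t
      have := Equiv.sum_comp (MulAction.toPerm t : Equiv.Perm X)
        (fun x => if x ∈ B then (1 : ℝ) else 0)
      simp only [MulAction.toPerm_apply] at this
      rw [this]
      simp
    rw [Finset.sum_congr rfl (fun t _ => this t)]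
    simp
  have h2 : ∑ x : X, a x = ∑ x ∈ R, a x := by
    symm
    apply Finset.sum_subset (Finset.subset_univ _)
    intro x _ hx
    simp only [ha]
    apply Finset.sum_eq_zero
    intro t _
    rw [if_neg]
    intro h'
    exact hx (h t x h')
  have h3 : (∑ x ∈ R, a x) ^ 2 ≤ #R * ∑ x ∈ R, a x ^ 2 := sq_sum_le_card_mul_sum_sq
  have h4 : ∑ x ∈ R, a x ^ 2 ≤ ∑ x : X, a x ^ 2 :=
    Finset.sum_le_sum_of_subset_of_nonneg (Finset.subset_univ _) (fun _ _ _ => sq_nonneg _)
  have h5 : ∑ x : X, a x ^ 2 = (Fintype.card Γ : ℝ) * ∑ t : Γ, (#{x ∈ B | t • x ∈ B} : ℝ) := by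
    have e1 : ∀ x : X, a x ^ 2 = ∑ t : Γ, ∑ t' : Γ,
        (if t • x ∈ B then (1 : ℝ) else 0) * (if t' • x ∈ B then (1 : ℝ) else 0) := by
      intro x
      simp only [ha, sq]
      rw [Finset.sum_mul_sum]
    rw [Finset.sum_congr rfl (fun x _ => e1 x), Finset.sum_comm]
    have e2 : ∀ t : Γ, ∑ x : X, ∑ t' : Γ,
        (if t • x ∈ B then (1 : ℝ) else 0) * (if t' • x ∈ B then (1 : ℝ) else 0)
        = ∑ u : Γ, (#{x ∈ B | u • x ∈ B} : ℝ) := by
      intro t
      have s1 := Equiv.sum_comp (MulAction.toPerm t : Equiv.Perm X)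
        (fun y => ∑ t' : Γ, (if y ∈ B then (1 : ℝ) else 0) *
          (if t' • (t⁻¹ • y) ∈ B then (1 : ℝ) else 0))
      simp only [MulAction.toPerm_apply, inv_smul_smul] at s1
      rw [s1, Finset.sum_comm]
      have s2 := Equiv.sum_comp (Equiv.mulRight t : Equiv.Perm Γ)
        (fun t' => ∑ y : X, (if y ∈ B then (1 : ℝ) else 0) *
          (if t' • (t⁻¹ • y) ∈ B then (1 : ℝ) else 0))
      rw [← s2]
      apply Finset.sum_congr rfl
      intro u _
      simp only [Equiv.coe_mulRight]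
      have : ∀ y : X, (u * t) • t⁻¹ • y = u • y := by
        intro y
        rw [smul_smul, mul_assoc, mul_inv_cancel, mul_one]
      simp only [this, ← ite_and, ite_mul, one_mul, zero_mul]
      rw [Finset.sum_boole]
      congr 2
      ext y
      simp
    rw [Finset.sum_congr rfl (fun t _ => e2 t)]
    simp
  have h6 : ((Fintype.card Γ : ℝ) * #B) ^ 2 ≤
      #R * ((Fintype.card Γ : ℝ) * ∑ t : Γ, (#{x ∈ B | t • x ∈ B} : ℝ)) := by
    rw [← h1, h2, ← h5]
    exact h3.trans (mul_le_mul_of_nonneg_left h4 (Nat.cast_nonneg _))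
  have h7 : (0 : ℝ) < Fintype.card Γ := by
    exact_mod_cast Fintype.card_pos
  have h8 : (Fintype.card Γ : ℝ) * ((Fintype.card Γ : ℝ) * (#B : ℝ) ^ 2) ≤
      (Fintype.card Γ : ℝ) * (#R * ∑ t : Γ, (#{x ∈ B | t • x ∈ B} : ℝ)) := by
    nlinarith [h6]
  exact le_of_mul_le_mul_left h8 h7

/-! ### the action of the units of `ZMod N` on a group killed by `N` -/

theorem nsmul_mod_of_kill {M : Type} [AddCommGroup M] {N : ℕ} {x : M} (h : N • x = 0) (k : ℕ) :
    (k % N) • x = k • x := by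
  conv_rhs => rw [← Nat.mod_add_div k N]
  rw [add_nsmul, mul_comm N, mul_nsmul', h, nsmul_zero, add_zero]

theorem val_mul_nsmul {M : Type} [AddCommGroup M] {N : ℕ} {x : M} (h : N • x = 0)
    (s t : ZMod N) : (s * t).val • x = s.val • (t.val • x) := by
  rw [ZMod.val_mul, nsmul_mod_of_kill h, mul_nsmul']

theorem val_one_nsmul {M : Type} [AddCommGroup M] {N : ℕ} [NeZero N] {x : M} (h : N • x = 0) :
    (1 : ZMod N).val • x = x := by
  have := nsmul_mod_of_kill h 1
  rw [one_nsmul] at this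
  have e : (1 : ZMod N).val = 1 % N := by rw [← Nat.cast_one, ZMod.val_natCast]
  rw [e, this]

/-- the action of a subgroup of the units -/
@[instance_reducible] def unitAct {M : Type} [AddCommGroup M] {N : ℕ} [NeZero N] (h : ∀ x : M, N • x = 0)
    (Γ : Subgroup (ZMod N)ˣ) : MulAction Γ M where
  smul t x := ((t : (ZMod N)ˣ) : ZMod N).val • x
  one_smul x := by
    change (((1 : Γ) : (ZMod N)ˣ) : ZMod N).val • x = x
    simpa using val_one_nsmul (h x)
  mul_smul s t x := by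
    change (((s * t : Γ) : (ZMod N)ˣ) : ZMod N).val • x = _
    rw [Subgroup.coe_mul, Units.val_mul]
    exact val_mul_nsmul (h x) _ _

theorem char_kill {G : Type} [AddCommGroup G] [Fintype G] (χ : AddChar G ℂ) :
    Fintype.card G • χ = 0 := by
  ext g
  rw [AddChar.nsmul_apply, ← AddChar.map_nsmul_eq_pow, card_nsmul_eq_zero, AddChar.map_zero_eq_one,
    AddChar.zero_apply]

/-! ### asymptotics -/

/-- conditions for large `m` -/
theorem asym (δ : ℝ) (hδ : 0 < δ) : ∃ m₀ : ℕ, 20000 ≤ m₀ ∧ ∀ m : ℕ, m₀ ≤ m →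
    120 ≤ δ * √m ∧ 1 + Real.log 3 + (1 + δ) * Real.log (3 / 2) ≤ δ / 2 * Real.log m := by
  have h1 : Filter.Tendsto (fun m : ℕ => δ * √(m : ℝ)) Filter.atTop Filter.atTop :=
    (Real.tendsto_sqrt_atTop.comp tendsto_natCast_atTop_atTop).const_mul_atTop hδ
  have h2 : Filter.Tendsto (fun m : ℕ => δ / 2 * Real.log (m : ℝ)) Filter.atTop Filter.atTop :=
    (Real.tendsto_log_atTop.comp tendsto_natCast_atTop_atTop).const_mul_atTop (by positivity)
  have h3 := (h1.eventually_ge_atTop 120).and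
    ((h2.eventually_ge_atTop (1 + Real.log 3 + (1 + δ) * Real.log (3 / 2))).and
      (Filter.eventually_ge_atTop 20000))
  obtain ⟨m₀, hm₀⟩ := Filter.eventually_atTop.1 h3
  refine ⟨max m₀ 20000, le_max_right _ _, fun m hm => ?_⟩
  have := hm₀ m ((le_max_left _ _).trans hm)
  exact ⟨this.1, this.2.1⟩

/-- the last step: real arithmetic -/
theorem final_arith (ε δ m r b N K P R W : ℝ) (hδ : 0 < δ) (hδε : δ ≤ ε / 50)
    (hδ1 : δ ≤ 1 / 50) (hm : 20000 ≤ m) (hr2 : r ^ 2 = m) (hr0 : 0 ≤ r) (hA1 : 120 ≤ δ * r)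
    (hbpos : 0 < b) (hNpos : 0 < N) (hbN : (1 / 3 - δ) * N ≤ b) (hK0 : 0 ≤ K) (hP0 : 0 ≤ P)
    (hcomb : K * b ^ 2 ≤ R * P) (hR : R ≤ (2 + δ) * b)
    (h5 : (6 * m - 10 * r) ^ 2 * P ≤ N * W) :
    (6 - ε) * m ^ 2 * K ≤ W := by
  have c1 : K * b ^ 2 ≤ (2 + δ) * b * P :=
    hcomb.trans (mul_le_mul_of_nonneg_right hR hP0)
  have c2 : K * b ≤ (2 + δ) * P := by
    have : b * (K * b) ≤ b * ((2 + δ) * P) := by nlinarith
    exact le_of_mul_le_mul_left this hbpos
  have c3 : (6 * m - 10 * r) ^ 2 * (K * b) ≤ (2 + δ) * (N * W) := by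
    calc (6 * m - 10 * r) ^ 2 * (K * b) ≤ (6 * m - 10 * r) ^ 2 * ((2 + δ) * P) :=
          mul_le_mul_of_nonneg_left c2 (sq_nonneg _)
      _ = (2 + δ) * ((6 * m - 10 * r) ^ 2 * P) := by ring
      _ ≤ _ := mul_le_mul_of_nonneg_left h5 (by linarith)
  have c4 : (6 * m - 10 * r) ^ 2 * (K * (1 / 3 - δ)) ≤ (2 + δ) * W := by
    have : N * ((6 * m - 10 * r) ^ 2 * (K * (1 / 3 - δ))) ≤ N * ((2 + δ) * W) := by
      calc N * ((6 * m - 10 * r) ^ 2 * (K * (1 / 3 - δ)))
          = (6 * m - 10 * r) ^ 2 * (K * ((1 / 3 - δ) * N)) := by ring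
        _ ≤ (6 * m - 10 * r) ^ 2 * (K * b) :=
          mul_le_mul_of_nonneg_left (mul_le_mul_of_nonneg_left hbN hK0) (sq_nonneg _)
        _ ≤ (2 + δ) * (N * W) := c3
        _ = _ := by ring
    exact le_of_mul_le_mul_left this hNpos
  have c5 : m ^ 2 * (36 - δ) ≤ (6 * m - 10 * r) ^ 2 := by
    have e : 120 * (m * r) ≤ δ * r * (m * r) :=
      mul_le_mul_of_nonneg_right hA1 (by positivity)
    have e' : δ * r * (m * r) = δ * m ^ 2 := by
      calc δ * r * (m * r) = δ * m * r ^ 2 := by ring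
        _ = δ * m ^ 2 := by rw [hr2]; ring
    nlinarith [sq_nonneg r]
  have c6 : m ^ 2 * (36 - δ) * (K * (1 / 3 - δ)) ≤ (2 + δ) * W :=
    (mul_le_mul_of_nonneg_right c5 (mul_nonneg hK0 (by linarith))).trans c4
  have c7 : (6 - ε) * (2 + δ) ≤ (36 - δ) * (1 / 3 - δ) := by nlinarith
  have c8 : (2 + δ) * ((6 - ε) * m ^ 2 * K) ≤ (2 + δ) * W := by
    refine le_trans ?_ c6
    have : (6 - ε) * (2 + δ) * (m ^ 2 * K) ≤ (36 - δ) * (1 / 3 - δ) * (m ^ 2 * K) :=
      mul_le_mul_of_nonneg_right c7 (by positivity)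
    linarith
  exact le_of_mul_le_mul_left c8 (by linarith)

/-! ### the main inequality -/

theorem ma (hSU : T_SU) (hVZ : T_VZ) (hPR : T_PR) (hDI : T_DI) : T_MA := by
  intro ε hε
  obtain ⟨δ, hδ, hδε, hδ1⟩ : ∃ δ : ℝ, 0 < δ ∧ δ ≤ ε / 50 ∧ δ ≤ 1 / 50 :=
    ⟨min (ε / 50) (1 / 50), by positivity, min_le_left _ _, min_le_right _ _⟩
  obtain ⟨m₀, h20, hm₀⟩ := asym δ hδ
  refine ⟨m₀, fun m hm G _ _ T hT Γ => ?_⟩
  obtain ⟨hA1, hA2⟩ := hm₀ m hm
  have hm20 : 20000 ≤ m := h20.trans hm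
  have hm20' : (20000 : ℝ) ≤ m := by exact_mod_cast hm20
  have hdi := hDI G T m hT hm20
  obtain ⟨-, hs2, hs4⟩ := hSU G T hT.neg_mem
  have hcard : (#T : ℝ) = 2 * m + 1 := by rw [hT.card]; push_cast; ring
  have hNG : 3 * (Fintype.card G : ℝ) = (2 * m + 1) * (2 * m ^ 2 + 2 * m + 3) := by
    exact_mod_cast hT.cardG
  obtain ⟨N, hN⟩ : ∃ N : ℝ, N = (Fintype.card G : ℝ) := ⟨_, rfl⟩
  rw [← hN] at hs2 hs4 hNG
  have hNm : (m : ℝ) ^ 3 ≤ N := by nlinarith [sq_nonneg (m : ℝ)]
  obtain ⟨r, hr⟩ : ∃ r : ℝ, r = √(m : ℝ) := ⟨_, rfl⟩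
  rw [← hr] at hA1 hdi
  have hr2 : r ^ 2 = m := by rw [hr]; exact Real.sq_sqrt (by positivity)
  have hr0 : 0 ≤ r := by rw [hr]; positivity
  have hr140 : 140 ≤ r := by
    by_contra hc
    push Not at hc
    nlinarith
  have hV0 : ‖V T (0 : AddChar G ℂ)‖ = 2 * m + 1 := by
    simp only [V, AddChar.zero_apply, sum_const, nsmul_eq_mul, mul_one]
    rw [Complex.norm_natCast, hcard]
  set B : Finset (AddChar G ℂ) := {χ | χ ≠ 0 ∧ r < ‖V T χ‖} with hB
  set S : Finset (AddChar G ℂ) := {χ | χ ≠ 0 ∧ V T χ ≠ 0 ∧ ‖V T χ‖ ≤ r} with hS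
  obtain ⟨b, hb⟩ : ∃ b : ℝ, b = (#B : ℝ) := ⟨_, rfl⟩
  obtain ⟨s, hs⟩ : ∃ s : ℝ, s = (#S : ℝ) := ⟨_, rfl⟩
  have hb0 : 0 ≤ b := by rw [hb]; positivity
  have hs0 : 0 ≤ s := by rw [hs]; positivity
  have hcardX : (Fintype.card (AddChar G ℂ) : ℝ) = N := by
    rw [AddChar.card_eq, hN]
  have hVB : ∀ χ ∈ B, |‖V T χ‖ ^ 2 - 6 * m| ≤ 10 * r := by
    intro χ hχ
    simp only [hB, mem_filter, mem_univ, true_and] at hχ
    exact (hdi χ hχ.1).2.2 hχ.2
  -- (1) second moment
  have h1 : N * (2 * m + 1) ≤ (2 * m + 1) ^ 2 + b * (6 * m + 10 * r) + N := by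
    have hpt : ∀ χ ∈ (univ : Finset (AddChar G ℂ)), ‖V T χ‖ ^ 2 ≤
        ((if χ = 0 then ((2 : ℝ) * m + 1) ^ 2 else 0) + (if χ ∈ B then 6 * (m : ℝ) + 10 * r else 0))
          + 1 := by
      intro χ _
      by_cases h0 : χ = 0
      · subst h0
        rw [hV0, if_pos rfl]
        have : 0 ≤ (if (0 : AddChar G ℂ) ∈ B then 6 * (m : ℝ) + 10 * r else 0) := by
          split_ifs <;> positivity
        linarith
      · rw [if_neg h0]
        by_cases hχ : χ ∈ B
        · rw [if_pos hχ]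
          have := (abs_le.1 (hVB χ hχ)).2
          linarith
        · rw [if_neg hχ]
          have h' : ‖V T χ‖ ≤ r := by
            by_contra hc
            exact hχ (by simp only [hB, mem_filter, mem_univ, true_and]; exact ⟨h0, not_le.1 hc⟩)
          have h'' := (hdi χ h0).2.1 h'
          have h3 : (3 / 2 / r : ℝ) ≤ 1 := by
            rw [div_le_one (by linarith)]; linarith
          have := norm_nonneg (V T χ)
          nlinarith
    have := Finset.sum_le_sum hpt
    rw [hs2, hcard, Finset.sum_add_distrib, Finset.sum_add_distrib, Finset.sum_ite_eq',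
      if_pos (mem_univ _), Finset.sum_ite_mem, Finset.univ_inter, Finset.sum_const,
      Finset.sum_const, Finset.card_univ, nsmul_eq_mul, nsmul_eq_mul, ← hb, hcardX] at this
    linarith
  have hN9 : (2 * (m : ℝ) + 1) ^ 2 ≤ N := by nlinarith [sq_nonneg (m : ℝ)]
  have h1' : (2 * m - 1) * N ≤ b * (6 * m + 10 * r) := by nlinarith
  have hδr : 720 * r ≤ 6 * m * δ := by
    rw [← hr2]; nlinarith
  have hNpos : 0 < N := by nlinarith [sq_nonneg (m : ℝ)]
  have hbN : (1 / 3 - δ) * N ≤ b := by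
    by_contra hc
    push Not at hc
    have h6 : 0 < 6 * (m : ℝ) + 10 * r := by positivity
    have := mul_lt_mul_of_pos_right hc h6
    have h7 : (1 / 3 - δ) * (6 * (m : ℝ) + 10 * r) ≤ 2 * m - 1 := by nlinarith
    nlinarith
  have hbm : 2 * (m : ℝ) ≤ b := by
    have : (1 / 4 : ℝ) * N ≤ (1 / 3 - δ) * N := by
      apply mul_le_mul_of_nonneg_right _ hNpos.le
      linarith
    nlinarith [sq_nonneg (m : ℝ)]
  have hbpos : 0 < b := by linarith
  -- (2) the product
  have h2 : 0 ≤ Real.log (2 * m + 1) + b * Real.log (3 * r) + s * Real.log (3 / 2 / r) := by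
    set F : Finset (AddChar G ℂ) := {χ | V T χ ≠ 0} with hF
    have hlog : 0 ≤ ∑ χ ∈ F, Real.log ‖V T χ‖ := by
      rw [← Real.log_prod]
      · exact Real.log_nonneg (hPR G T)
      · intro χ hχ
        simp only [hF, mem_filter, mem_univ, true_and] at hχ
        exact norm_ne_zero_iff.2 hχ
    have hl3 : 0 ≤ Real.log (3 * r) := Real.log_nonneg (by linarith)
    have hl2 : 0 ≤ Real.log (2 * m + 1) := Real.log_nonneg (by linarith)
    have hpt : ∀ χ ∈ F, Real.log ‖V T χ‖ ≤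
        (if χ = 0 then Real.log (2 * m + 1) else 0) + (if χ ∈ B then Real.log (3 * r) else 0) +
          (if χ ∈ S then Real.log (3 / 2 / r) else 0) := by
      intro χ hχ
      simp only [hF, mem_filter, mem_univ, true_and] at hχ
      have hpos : 0 < ‖V T χ‖ := norm_pos_iff.2 hχ
      by_cases h0 : χ = 0
      · have hnB : χ ∉ B := by simp [hB, h0]
        have hnS : χ ∉ S := by simp [hS, h0]
        rw [if_pos h0, if_neg hnB, if_neg hnS, h0, hV0]
        linarith
      · by_cases hχB : χ ∈ B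
        · have hnS : χ ∉ S := by
            simp only [hB, hS, mem_filter, mem_univ, true_and, not_and, not_le] at hχB ⊢
            intro _ _
            exact hχB.2
          rw [if_neg h0, if_pos hχB, if_neg hnS]
          have := Real.log_le_log hpos (hdi χ h0).1
          linarith
        · have h' : ‖V T χ‖ ≤ r := by
            by_contra hc
            exact hχB (by simp only [hB, mem_filter, mem_univ, true_and]; exact ⟨h0, not_le.1 hc⟩)
          have hχS : χ ∈ S := by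
            simp only [hS, mem_filter, mem_univ, true_and]
            exact ⟨h0, hχ, h'⟩
          rw [if_neg h0, if_neg hχB, if_pos hχS]
          have := Real.log_le_log hpos ((hdi χ h0).2.1 h')
          linarith
    have h3 := Finset.sum_le_sum hpt
    have h4 : ∑ χ ∈ F, ((if χ = 0 then Real.log (2 * m + 1) else 0) +
        (if χ ∈ B then Real.log (3 * r) else 0) + (if χ ∈ S then Real.log (3 / 2 / r) else 0)) ≤
        ∑ χ : AddChar G ℂ, ((if χ = 0 then Real.log (2 * m + 1) else 0) +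
        (if χ ∈ B then Real.log (3 * r) else 0) + (if χ ∈ S then Real.log (3 / 2 / r) else 0)) := by
      apply Finset.sum_le_sum_of_subset_of_nonneg (Finset.subset_univ _)
      intro χ _ hχ
      have hnS : χ ∉ S := by
        simp only [hF, hS, mem_filter, mem_univ, true_and, not_and] at hχ ⊢
        intro _ h
        exact absurd h hχ
      rw [if_neg hnS]
      have a1 : 0 ≤ (if χ = 0 then Real.log (2 * m + 1) else 0) := by
        split_ifs; exacts [hl2, le_rfl]
      have a2 : 0 ≤ (if χ ∈ B then Real.log (3 * r) else 0) := by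
        split_ifs; exacts [hl3, le_rfl]
      linarith
    have h5 := hlog.trans (h3.trans h4)
    rw [Finset.sum_add_distrib, Finset.sum_add_distrib, Finset.sum_ite_eq',
      if_pos (mem_univ _), Finset.sum_ite_mem, Finset.univ_inter, Finset.sum_ite_mem,
      Finset.univ_inter, Finset.sum_const, Finset.sum_const, nsmul_eq_mul, nsmul_eq_mul, ← hb,
      ← hs] at h5
    exact h5
  have hlogr : Real.log r = Real.log m / 2 := by
    rw [hr, Real.log_sqrt (by positivity)]
  have hsb : s ≤ (1 + δ) * b := by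
    have e1 : Real.log (3 * r) = Real.log 3 + Real.log m / 2 := by
      rw [Real.log_mul (by norm_num) (by positivity), hlogr]
    have e2 : Real.log (3 / 2 / r) = Real.log (3 / 2) - Real.log m / 2 := by
      rw [Real.log_div (by norm_num) (by positivity), hlogr]
    have e3 : Real.log (2 * m + 1) ≤ b := by
      have := Real.log_le_sub_one_of_pos (show (0 : ℝ) < 2 * m + 1 by positivity)
      linarith
    rw [e1, e2] at h2
    have e4 : s * (Real.log m / 2 - Real.log (3 / 2)) ≤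
        (1 + δ) * b * (Real.log m / 2 - Real.log (3 / 2)) := by
      have : b * (1 + Real.log 3 + (1 + δ) * Real.log (3 / 2)) ≤ b * (δ / 2 * Real.log m) :=
        mul_le_mul_of_nonneg_left hA2 hb0
      nlinarith
    have e5 : 0 < Real.log m / 2 - Real.log (3 / 2) := by
      have l3 : 0 ≤ Real.log 3 := Real.log_nonneg (by norm_num)
      have lm : 0 ≤ Real.log m := Real.log_nonneg (by linarith)
      have : 0 < (1 + δ) * (Real.log m / 2 - Real.log (3 / 2)) := by nlinarith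
      exact (mul_pos_iff_of_pos_left (by linarith)).1 this
    exact le_of_mul_le_mul_right e4 e5
  -- (3) the group action
  have hNZ : NeZero (Fintype.card G) := ⟨Fintype.card_ne_zero⟩
  let _inst : MulAction Γ (AddChar G ℂ) := unitAct (fun χ => char_kill χ) Γ
  have hact : ∀ (t : Γ) (χ : AddChar G ℂ), t • χ =
      ((t : (ZMod (Fintype.card G))ˣ) : ZMod (Fintype.card G)).val • χ := fun _ _ => rfl
  have hcomb := comb (Γ := Γ) B (B ∪ S) (by
    intro t χ htχ
    rw [hact] at htχ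
    simp only [hB, mem_filter, mem_univ, true_and] at htχ
    have hχ0 : χ ≠ 0 := by
      rintro rfl
      exact htχ.1 (nsmul_zero _)
    have hVχ : V T χ ≠ 0 := by
      intro h0
      have := hVZ G T χ _ (ZMod.val_coe_unit_coprime (t : (ZMod (Fintype.card G))ˣ)) h0
      rw [this, norm_zero] at htχ
      linarith [htχ.2]
    rw [mem_union]
    by_cases h' : ‖V T χ‖ ≤ r
    · right
      simp only [hS, mem_filter, mem_univ, true_and]
      exact ⟨hχ0, hVχ, h'⟩
    · left
      simp only [hB, mem_filter, mem_univ, true_and]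
      exact ⟨hχ0, not_le.1 h'⟩)
  have hR : (#(B ∪ S) : ℝ) ≤ (2 + δ) * b := by
    have : (#(B ∪ S) : ℝ) ≤ #B + #S := by exact_mod_cast card_union_le B S
    rw [← hb, ← hs] at this
    linarith
  -- (4) the fourth moments
  have hm6 : 0 < 6 * (m : ℝ) - 10 * r := by rw [← hr2]; nlinarith
  have h4 : ∀ t : Γ, (6 * (m : ℝ) - 10 * r) ^ 2 * (#{χ ∈ B | t • χ ∈ B} : ℝ) ≤
      N * ∑ g, (r2 T g : ℝ) *
        r2 T (((t : (ZMod (Fintype.card G))ˣ) : ZMod (Fintype.card G)).val • g) := by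
    intro t
    rw [← hs4]
    have : (6 * (m : ℝ) - 10 * r) ^ 2 * (#{χ ∈ B | t • χ ∈ B} : ℝ) =
        ∑ χ ∈ B with t • χ ∈ B, (6 * (m : ℝ) - 10 * r) ^ 2 := by
      rw [Finset.sum_const, nsmul_eq_mul, mul_comm]
    rw [this]
    refine (Finset.sum_le_sum fun χ hχ => ?_).trans
      (Finset.sum_le_univ_sum_of_nonneg fun χ => by positivity)
    rw [mem_filter] at hχ
    have a1 := (abs_le.1 (hVB χ hχ.1)).1
    have a2 := (abs_le.1 (hVB _ hχ.2)).1
    rw [hact] at a2
    rw [sq]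
    apply mul_le_mul _ _ hm6.le (by positivity)
    · linarith
    · linarith
  have h5 := Finset.sum_le_sum (fun t (_ : t ∈ (univ : Finset Γ)) => h4 t)
  rw [← Finset.mul_sum, ← Finset.mul_sum] at h5
  have hΓ : (Fintype.card Γ : ℝ) = Nat.card Γ := by rw [Nat.card_eq_fintype_card]
  have hsum : ∑ t : Γ, ∑ g, (r2 T g : ℝ) *
        r2 T (((t : (ZMod (Fintype.card G))ˣ) : ZMod (Fintype.card G)).val • g) =
      ∑ t with t ∈ Γ, ∑ g, (r2 T g : ℝ) * r2 T ((t : ZMod (Fintype.card G)).val • g) := by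
    rw [← Finset.sum_subtype (Finset.univ.filter (fun t => t ∈ Γ))
      (p := fun t => t ∈ Γ) (by simp)
      (fun t : (ZMod (Fintype.card G))ˣ => ∑ g, (r2 T g : ℝ) *
        r2 T ((t : ZMod (Fintype.card G)).val • g))]
  rw [hsum] at h5
  rw [hΓ, ← hb] at hcomb
  exact final_arith ε δ m r b N _ _ _ _ hδ hδε hδ1 hm20' hr2 hr0 hA1 hbpos hNpos hbN
    (by positivity) (Finset.sum_nonneg fun _ _ => by positivity) hcomb hR h5

end

end Pool.Agent.H24.GW
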