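import Pool.Agent.H23.GW.Targets

/-!
# Module GP: the primary components of the group
-/

set_option autoImplicit false

open Finset
open scoped Classical

namespace Pool.Agent.H24.GW

open Pool.Agent.H23.GW

noncomputable section

/-! ### torsion subgroups -/

theorem card_ker_dvd {G : Type} [AddCommGroup G] [Fintype G] {a b : ℕ}
    (hab : Nat.Coprime a b) (hG : Fintype.card G = a * b) :
    Nat.card (nsmulAddMonoidHom b : G →+ G).ker ∣ b := by
  have h1 : Nat.card (nsmulAddMonoidHom b : G →+ G).ker ∣ a * b := by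
    rw [← hG, ← Nat.card_eq_fintype_card]
    exact AddSubgroup.card_addSubgroup_dvd_card _
  have h2 : Nat.Coprime (Nat.card (nsmulAddMonoidHom b : G →+ G).ker) a := by
    apply Nat.Coprime.symm
    rw [Nat.coprime_iff_gcd_eq_one]
    by_contra hne
    obtain ⟨q, hq, hqd⟩ := Nat.exists_prime_and_dvd hne
    have hqa := hqd.trans (Nat.gcd_dvd_left _ _)
    have hqk := hqd.trans (Nat.gcd_dvd_right _ _)
    have : Fact q.Prime := ⟨hq⟩
    obtain ⟨x, hx⟩ := exists_prime_addOrderOf_dvd_card' q hqk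
    have hx0 : b • (x : G) = 0 := by
      have := x.2
      rwa [AddMonoidHom.mem_ker, nsmulAddMonoidHom_apply] at this
    have hqb : q ∣ b := by
      rw [← hx, ← AddSubgroup.addOrderOf_coe]
      exact addOrderOf_dvd_of_nsmul_eq_zero hx0
    exact hq.one_lt.ne' (Nat.eq_one_of_dvd_coprimes hab hqa hqb)
  exact h2.dvd_of_dvd_mul_left h1

theorem card_tors_le {G : Type} [AddCommGroup G] [Fintype G] {a b : ℕ}
    (hab : Nat.Coprime a b) (hG : Fintype.card G = a * b) (hb : 0 < b) :
    #{g : G | b • g = 0} ≤ b := by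
  have h1 := Nat.le_of_dvd hb (card_ker_dvd hab hG)
  rw [Nat.card_eq_fintype_card, Fintype.card_subtype] at h1
  refine le_trans (le_of_eq ?_) h1
  congr 1
  ext g
  simp [AddMonoidHom.mem_ker]

/-! ### the group of units congruent to one -/

variable {N a b : ℕ}

theorem mem_ker_iff (hb : b ∣ N) [NeZero N] (t : (ZMod N)ˣ) :
    t ∈ (ZMod.unitsMap hb).ker ↔ (t : ZMod N).val ≡ 1 [MOD b] := by
  rw [MonoidHom.mem_ker, Units.ext_iff, ZMod.unitsMap_val, Units.val_one,
    ← ZMod.natCast_eq_natCast_iff, Nat.cast_one]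
  rw [ZMod.natCast_val]

theorem unitsMap_eq_iff {p : ℕ} (hp : p ∣ N) [NeZero N] (s t : (ZMod N)ˣ) :
    ZMod.unitsMap hp s = ZMod.unitsMap hp t ↔
      (s : ZMod N).val ≡ (t : ZMod N).val [MOD p] := by
  rw [Units.ext_iff, ZMod.unitsMap_val, ZMod.unitsMap_val, ← ZMod.natCast_eq_natCast_iff,
    ZMod.natCast_val, ZMod.natCast_val]

/-- the units congruent to one modulo the prime to `p` part cover all classes modulo `p`. -/
theorem exists_unit {p v : ℕ} (hp : p.Prime) (hv : v ≠ 0) [NeZero N] (hN : N = p ^ v * b)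
    (hpb : Nat.Coprime p b) (hbN : b ∣ N) (hpN : p ∣ N) (u : (ZMod p)ˣ) :
    ∃ t : (ZMod N)ˣ, t ∈ (ZMod.unitsMap hbN).ker ∧ ZMod.unitsMap hpN t = u := by
  have : NeZero p := ⟨hp.ne_zero⟩
  have hco : Nat.Coprime (p ^ v) b := Nat.Coprime.pow_left _ hpb
  obtain ⟨k, hk1, hk2⟩ := Nat.chineseRemainder hco (u : ZMod p).val 1
  have hk1' : k ≡ (u : ZMod p).val [MOD p] := hk1.of_dvd (dvd_pow_self p hv)
  have hkp : Nat.Coprime k p := by
    have h := ZMod.val_coe_unit_coprime u
    rw [Nat.coprime_iff_gcd_eq_one] at h ⊢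
    rw [← h]
    exact hk1'.gcd_eq
  have hkb : Nat.Coprime k b := by
    rw [Nat.coprime_iff_gcd_eq_one, hk2.gcd_eq, Nat.gcd_one_left]
  have hkN : Nat.Coprime k N := by
    rw [hN]
    exact Nat.Coprime.mul_right (Nat.Coprime.pow_right _ hkp) hkb
  have hval : ((ZMod.unitOfCoprime k hkN : (ZMod N)ˣ) : ZMod N).val ≡ k [MOD N] := by
    rw [ZMod.coe_unitOfCoprime, ZMod.val_natCast]
    exact Nat.mod_modEq k N
  refine ⟨ZMod.unitOfCoprime k hkN, ?_, ?_⟩
  · rw [mem_ker_iff]
    exact (hval.of_dvd hbN).trans hk2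
  · rw [Units.ext_iff, ZMod.unitsMap_val, ZMod.coe_unitOfCoprime, ZMod.cast_natCast hpN]
    have h2 := (ZMod.natCast_eq_natCast_iff _ _ _).2 hk1'
    rw [h2, ZMod.natCast_zmod_val]

/-- number of units of the kernel with given value on `g` -/
theorem count_units {G : Type} [AddCommGroup G] [Fintype G] {p v : ℕ} (hp : p.Prime) (hv : v ≠ 0)
    (hN : Fintype.card G = p ^ v * b) (hpb : Nat.Coprime p b) (hbN : b ∣ Fintype.card G)
    (Γ : Subgroup (ZMod (Fintype.card G))ˣ) (hΓ : Γ = (ZMod.unitsMap hbN).ker)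
    (g h : G) (hg : b • g ≠ 0) :
    (p - 1) * #{t : (ZMod (Fintype.card G))ˣ | t ∈ Γ ∧
      (t : ZMod (Fintype.card G)).val • g = h} ≤ Nat.card Γ := by
  have : NeZero (Fintype.card G) := ⟨Fintype.card_ne_zero⟩
  have : Fact p.Prime := ⟨hp⟩
  have hpN : p ∣ Fintype.card G := by
    rw [hN]; exact (dvd_pow_self p hv).mul_right _
  choose f hf1 hf2 using exists_unit hp hv hN hpb hbN hpN
  rw [← hΓ] at hf1
  have hord : p ∣ addOrderOf g := by
    by_contra hnd
    have h1 : addOrderOf g ∣ p ^ v * b := by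
      rw [← hN]; exact addOrderOf_dvd_card
    have h2 : Nat.Coprime (addOrderOf g) (p ^ v) :=
      Nat.Coprime.pow_right _ ((Nat.Prime.coprime_iff_not_dvd hp).2 hnd).symm
    exact hg (addOrderOf_dvd_iff_nsmul_eq_zero.1 (h2.dvd_of_dvd_mul_left h1))
  have hcard : Nat.card Γ = #{t : (ZMod (Fintype.card G))ˣ | t ∈ Γ} := by
    rw [Nat.card_eq_fintype_card, Fintype.card_subtype]
  have hcu : p - 1 = #(univ : Finset (ZMod p)ˣ) := by
    rw [Finset.card_univ, ZMod.card_units]
  rw [hcard]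
  conv_lhs => rw [hcu]
  rw [← Finset.card_product]
  apply Finset.card_le_card_of_injOn (fun q => f q.1 * q.2)
  · intro q hq
    simp only [coe_product, coe_univ, coe_filter, mem_univ, true_and, Set.mem_prod,
      Set.mem_univ, Set.mem_ofPred_eq] at hq ⊢
    exact mul_mem (hf1 _) hq.1
  · intro q hq q' hq' heq
    simp only [coe_product, coe_univ, coe_filter, mem_univ, true_and, Set.mem_prod,
      Set.mem_univ, Set.mem_ofPred_eq] at hq hq' heq
    have h3 : ZMod.unitsMap hpN q.2 = ZMod.unitsMap hpN q'.2 := by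
      rw [unitsMap_eq_iff]
      have h4 : (q.2 : ZMod (Fintype.card G)).val • g = (q'.2 : ZMod (Fintype.card G)).val • g := by
        rw [hq.2, hq'.2]
      rw [nsmul_eq_nsmul_iff_modEq] at h4
      exact h4.of_dvd hord
    have h5 : q.1 = q'.1 := by
      have h6 := congrArg (ZMod.unitsMap hpN) heq
      rw [map_mul, map_mul, hf2, hf2, h3] at h6
      exact mul_right_cancel h6
    have h7 : q.2 = q'.2 := by
      rw [h5] at heq
      exact mul_left_cancel heq
    exact Prod.ext h5 h7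

/-! ### sums of `r2` -/

section sums

variable {G : Type} [AddCommGroup G] [Fintype G] (T : Finset G)

theorem sum_r2 : ∑ g, r2 T g = #T ^ 2 := by
  unfold r2
  rw [← Finset.card_eq_sum_card_fiberwise (f := fun q : G × G => q.1 + q.2) (t := univ)
    (fun _ _ => mem_coe.2 (mem_univ _)), Finset.card_product, sq]

omit [Fintype G] in
theorem r2_zero_le : r2 T 0 ≤ #T := by
  unfold r2
  apply Finset.card_le_card_of_injOn (fun q => q.1)
  · intro q hq
    simp only [coe_filter, mem_product, Set.mem_ofPred_eq] at hq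
    exact hq.1.1
  · intro q hq q' hq' h
    simp only [coe_filter, mem_product, Set.mem_ofPred_eq] at hq hq' h
    refine Prod.ext h ?_
    have h1 := hq.2
    have h2 := hq'.2
    rw [← h2, h] at h1
    exact add_left_cancel h1

end sums

/-- the sum over the kernel for one element which is not killed by `b` -/
theorem sum_one {G : Type} [AddCommGroup G] [Fintype G] (T : Finset G) {p v : ℕ} (hp : p.Prime)
    (hv : v ≠ 0) (hN : Fintype.card G = p ^ v * b) (hpb : Nat.Coprime p b)
    (hbN : b ∣ Fintype.card G) (Γ : Subgroup (ZMod (Fintype.card G))ˣ)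
    (hΓ : Γ = (ZMod.unitsMap hbN).ker) (g : G) (hg : b • g ≠ 0) :
    (p - 1) * ∑ t : (ZMod (Fintype.card G))ˣ with t ∈ Γ,
      r2 T ((t : ZMod (Fintype.card G)).val • g) ≤
    Nat.card Γ * ∑ d : G with (p ^ v) • d = 0, r2 T (g + d) := by
  have : NeZero (Fintype.card G) := ⟨Fintype.card_ne_zero⟩
  have h1 : ∀ t : (ZMod (Fintype.card G))ˣ, t ∈ Γ →
      r2 T ((t : ZMod (Fintype.card G)).val • g) = ∑ d : G with (p ^ v) • d = 0,
        if (t : ZMod (Fintype.card G)).val • g = g + d then r2 T (g + d) else 0 := by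
    intro t ht
    rw [hΓ, mem_ker_iff] at ht
    set k := (t : ZMod (Fintype.card G)).val with hk
    have hd : (p ^ v) • (k • g - g) = 0 := by
      have e1 : p ^ v * k ≡ p ^ v * 1 [MOD p ^ v * b] := Nat.ModEq.mul_left' _ ht
      rw [← hN, mul_one] at e1
      have e2 := (nsmul_eq_nsmul_iff_modEq (x := g)).2
        (e1.of_dvd (addOrderOf_dvd_card (x := g)))
      rw [nsmul_sub, ← e2, mul_nsmul', sub_self]
    rw [Finset.sum_eq_single_of_mem (k • g - g)]
    · rw [if_pos (by abel)]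
      congr 1
      abel
    · simp only [mem_filter, mem_univ, true_and]
      exact hd
    · intro d _ hne
      rw [if_neg]
      intro h
      apply hne
      rw [h]
      abel
  rw [Finset.sum_congr rfl (fun t ht => h1 t (by simpa using ht)), Finset.sum_comm,
    Finset.mul_sum, Finset.mul_sum]
  apply Finset.sum_le_sum
  intro d _
  rw [← Finset.sum_filter, Finset.sum_const, smul_eq_mul, ← mul_assoc]
  apply Nat.mul_le_mul_right
  have := count_units hp hv hN hpb hbN Γ hΓ g (g + d) hg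
  rw [Finset.filter_filter]
  exact this

/-- the numerical end of the proof -/
theorem gp_arith (q P m : ℝ) (hq : 6 ≤ q) (hm : 10 ^ 8 ≤ m) (hP : (10 ≤ q ∧ 11 ≤ P) ∨ 49 ≤ P)
    (h : 25 * P ≤ 2 * (q - 4) * m)
    (hMA : q * ((6 - 1 / 100) * m ^ 2) ≤ q * ((2 * m + 1) ^ 2 + 2 * ((2 * m + 1) ^ 2 / P + 9 * m)) +
      (2 * (2 * m + 1) ^ 2 + (P - 1) * (24 * m + 6))) : False := by
  have hm0 : 0 < m := by linarith
  have hP0 : 0 < P := by rcases hP with h | h <;> linarith
  have e1 : (2 * m + 1) ^ 2 ≤ 4.001 * m ^ 2 := by nlinarith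
  have e2 : 18 * m ≤ 0.001 * m ^ 2 := by nlinarith
  have e3 : 6 * P ≤ 0.001 * (q * m ^ 2) := by
    have : 6 * P ≤ 0.48 * (q * m) := by nlinarith
    have h' : 0.48 * (q * m) ≤ 0.001 * (q * m ^ 2) := by
      have : 0 ≤ q * m := by positivity
      nlinarith
    linarith
  have e4 : (2 * m + 1) ^ 2 / P ≤ 4.001 * m ^ 2 / P := div_le_div_of_nonneg_right e1 hP0.le
  have e5 : q * ((6 - 1 / 100) * m ^ 2) ≤
      q * (4.001 * m ^ 2 + 8.002 * m ^ 2 / P + 0.001 * m ^ 2) + 8.002 * m ^ 2 + 24 * m * P +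
        0.001 * (q * m ^ 2) := by
    have f1 : q * ((2 * m + 1) ^ 2 + 2 * ((2 * m + 1) ^ 2 / P + 9 * m)) ≤
        q * (4.001 * m ^ 2 + 8.002 * m ^ 2 / P + 0.001 * m ^ 2) := by
      apply mul_le_mul_of_nonneg_left _ (by linarith)
      have : 8.002 * m ^ 2 / P = 2 * (4.001 * m ^ 2 / P) := by ring
      rw [this]
      linarith
    nlinarith
  -- divide by m ^ 2
  have e6 : 5.99 * q ≤ q * (4.002 + 8.002 / P) + 8.002 + 24 * (P / m) + 0.001 * q := by
    have hm2 : 0 < m ^ 2 := by positivity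
    have : m ^ 2 * (5.99 * q) ≤
        m ^ 2 * (q * (4.002 + 8.002 / P) + 8.002 + 24 * (P / m) + 0.001 * q) := by
      have g1 : m ^ 2 * (24 * (P / m)) = 24 * m * P := by
        field_simp
      have g2 : m ^ 2 * (q * (8.002 / P)) = q * (8.002 * m ^ 2 / P) := by ring
      nlinarith
    exact le_of_mul_le_mul_left this hm2
  have e7 : P / m ≤ 2 / 25 * (q - 4) := by
    rw [div_le_iff₀ hm0]; linarith
  by_cases hc : P ≤ m / 1000
  · have e8 : P / m ≤ 1 / 1000 := by
      rw [div_le_iff₀ hm0]; linarith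
    rcases hP with h' | h'
    · have e9 : 8.002 / P ≤ 0.73 := by
        rw [div_le_iff₀ hP0]; linarith [h'.2]
      nlinarith [h'.1]
    · have e9 : 8.002 / P ≤ 0.17 := by
        rw [div_le_iff₀ hP0]; linarith
      nlinarith
  · push Not at hc
    have e9 : 8.002 / P ≤ 0.001 := by
      rw [div_le_iff₀ hP0]; linarith
    nlinarith

theorem gp (hMA : T_MA) (hSB : T_SB) : T_GP := by
  obtain ⟨m₁, hm₁⟩ := hMA (1 / 100) (by norm_num)
  refine ⟨max m₁ (10 ^ 8), fun m hm G _ _ T hT p hp hpN hp7 => ?_⟩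
  have : Fact p.Prime := ⟨hp⟩
  have hmm : m₁ ≤ m := (le_max_left _ _).trans hm
  have hm8 : 10 ^ 8 ≤ m := (le_max_right _ _).trans hm
  have hNZ : NeZero (Fintype.card G) := ⟨Fintype.card_ne_zero⟩
  have hN0 : Fintype.card G ≠ 0 := Fintype.card_ne_zero
  set v := (Fintype.card G).factorization p with hv
  have hv0 : v ≠ 0 := (hp.factorization_pos_of_dvd hN0 hpN).ne'
  obtain ⟨b, hb⟩ : ∃ b, b = Fintype.card G / p ^ v := ⟨_, rfl⟩
  have hN : Fintype.card G = p ^ v * b := by
    rw [hb]; exact (Nat.ordProj_mul_ordCompl_eq_self _ _).symm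
  have hpb : Nat.Coprime p b := by
    rw [hb]; exact Nat.coprime_ordCompl hp hN0
  have hbN : b ∣ Fintype.card G := by rw [hN]; exact dvd_mul_left _ _
  have hb0 : 0 < b := Nat.pos_of_dvd_of_pos hbN (Nat.pos_of_ne_zero hN0)
  by_contra hcon
  push Not at hcon
  obtain ⟨Γ, hΓ⟩ : ∃ Γ : Subgroup (ZMod (Fintype.card G))ˣ, Γ = (ZMod.unitsMap hbN).ker := ⟨_, rfl⟩
  have h1 := hm₁ m hmm G T hT Γ
  obtain ⟨K, hK⟩ : ∃ K : ℕ, K = Nat.card Γ := ⟨_, rfl⟩
  rw [← hK] at h1
  have hK0 : 0 < K := by rw [hK]; exact Nat.card_pos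
  have hr1 : ∀ g : G, g ≠ 0 → r2 T g ≤ 2 := hT.r_le
  have hcardT : #T = 2 * m + 1 := hT.card
  -- elements killed by `b`
  have hA : ∀ g : G, b • g = 0 → ∀ t : (ZMod (Fintype.card G))ˣ, t ∈ Γ →
      (t : ZMod (Fintype.card G)).val • g = g := by
    intro g hg t ht
    rw [hΓ, mem_ker_iff] at ht
    have := (nsmul_eq_nsmul_iff_modEq (x := g)).2
      (ht.of_dvd (addOrderOf_dvd_of_nsmul_eq_zero hg))
    rw [one_nsmul] at this
    exact this
  have hco : Nat.Coprime (p ^ v) b := Nat.Coprime.pow_left _ hpb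
  -- the sum, in natural numbers
  have h2 : (p - 1) * ∑ t with t ∈ Γ, ∑ g, r2 T g * r2 T ((t : ZMod (Fintype.card G)).val • g) ≤
      K * ((p - 1) * (∑ g with b • g = 0, r2 T g ^ 2) +
        ∑ g with ¬ b • g = 0, r2 T g * ∑ d : G with (p ^ v) • d = 0, r2 T (g + d)) := by
    rw [Finset.sum_comm, ← Finset.sum_filter_add_sum_filter_not univ (fun g : G => b • g = 0),
      mul_add, mul_add]
    apply Nat.add_le_add
    · have : ∑ g with b • g = 0, ∑ t with t ∈ Γ,
          r2 T g * r2 T ((t : ZMod (Fintype.card G)).val • g) =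
          ∑ g with b • g = 0, K * r2 T g ^ 2 := by
        apply Finset.sum_congr rfl
        intro g hg
        simp only [mem_filter, mem_univ, true_and] at hg
        have : ∀ t ∈ ({t | t ∈ Γ} : Finset (ZMod (Fintype.card G))ˣ),
            r2 T g * r2 T ((t : ZMod (Fintype.card G)).val • g) = r2 T g ^ 2 := by
          intro t ht
          rw [hA g hg t (by simpa using ht), sq]
        rw [Finset.sum_congr rfl this, Finset.sum_const, smul_eq_mul, hK,
          Nat.card_eq_fintype_card, Fintype.card_subtype]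
      rw [this, ← Finset.mul_sum]
      exact le_of_eq (by ring)
    · rw [Finset.mul_sum, Finset.mul_sum]
      apply Finset.sum_le_sum
      intro g hg
      simp only [mem_filter, mem_univ, true_and] at hg
      rw [← Finset.mul_sum]
      have := sum_one T hp hv0 hN hpb hbN Γ hΓ g hg
      rw [← hK] at this
      calc (p - 1) * (r2 T g * ∑ t with t ∈ Γ, r2 T ((t : ZMod (Fintype.card G)).val • g))
          = r2 T g * ((p - 1) * ∑ t with t ∈ Γ, r2 T ((t : ZMod (Fintype.card G)).val • g)) := by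
            ring
        _ ≤ r2 T g * (K * ∑ d : G with (p ^ v) • d = 0, r2 T (g + d)) :=
            Nat.mul_le_mul_left _ this
        _ = _ := by ring
  -- first part
  have h3 : ∑ g with b • g = 0, r2 T g ^ 2 ≤ (2 * m + 1) ^ 2 + 2 * ∑ g with b • g = 0, r2 T g := by
    have hpt : ∀ g ∈ ({g | b • g = 0} : Finset G), r2 T g ^ 2 ≤
        (if g = 0 then (2 * m + 1) ^ 2 else 0) + 2 * r2 T g := by
      intro g _
      by_cases h0 : g = 0
      · rw [if_pos h0, h0]
        have := r2_zero_le T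
        rw [hcardT] at this
        nlinarith [Nat.pow_le_pow_left this 2]
      · rw [if_neg h0]
        have := hr1 g h0
        nlinarith
    refine (Finset.sum_le_sum hpt).trans ?_
    rw [Finset.sum_add_distrib, ← Finset.mul_sum, Finset.sum_ite_eq']
    apply Nat.add_le_add_right
    split_ifs <;> simp
  -- second part
  have h4 : ∑ g with ¬ b • g = 0, r2 T g * ∑ d : G with (p ^ v) • d = 0, r2 T (g + d) ≤
      2 * (2 * m + 1) ^ 2 + (p ^ v - 1) * (24 * m + 6) := by
    have e1 : ∑ g with ¬ b • g = 0, r2 T g * ∑ d : G with (p ^ v) • d = 0, r2 T (g + d) =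
        ∑ d : G with (p ^ v) • d = 0, ∑ g with ¬ b • g = 0, r2 T g * r2 T (g + d) := by
      rw [Finset.sum_comm]
      apply Finset.sum_congr rfl
      intro g _
      rw [Finset.mul_sum]
    rw [e1]
    have e2 : (0 : G) ∈ ({d | (p ^ v) • d = 0} : Finset G) := by simp
    rw [← Finset.add_sum_erase _ _ e2]
    apply Nat.add_le_add
    · have : ∀ g ∈ ({g | ¬ b • g = 0} : Finset G), r2 T g * r2 T (g + 0) ≤ 2 * r2 T g := by
        intro g hg
        simp only [mem_filter, mem_univ, true_and] at hg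
        have h0 : g ≠ 0 := by
          rintro rfl
          exact hg (nsmul_zero _)
        rw [add_zero]
        have := hr1 g h0
        nlinarith
      refine (Finset.sum_le_sum this).trans ?_
      rw [← Finset.mul_sum]
      apply Nat.mul_le_mul_left
      rw [← hcardT, ← sum_r2]
      exact Finset.sum_le_sum_of_subset (Finset.subset_univ _)
    · have hc : #(({d | (p ^ v) • d = 0} : Finset G).erase 0) ≤ p ^ v - 1 := by
        rw [Finset.card_erase_of_mem e2]
        apply Nat.sub_le_sub_right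
        exact card_tors_le hco.symm (by rw [hN, mul_comm]) (pow_pos hp.pos _)
      have : ∀ d ∈ (({d | (p ^ v) • d = 0} : Finset G).erase 0),
          ∑ g with ¬ b • g = 0, r2 T g * r2 T (g + d) ≤ 24 * m + 6 := by
        intro d hd
        rw [mem_erase] at hd
        exact (Finset.sum_le_sum_of_subset (Finset.subset_univ _)).trans (hT.corr d hd.1)
      refine (Finset.sum_le_sum this).trans ?_
      rw [Finset.sum_const, smul_eq_mul]
      exact Nat.mul_le_mul_right _ hc
  -- the subgroup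
  have h5 : ∑ g with b • g = 0, (r2 T g : ℝ) ≤ (2 * (m : ℝ) + 1) ^ 2 / (p ^ v : ℕ) + 9 * m := by
    obtain ⟨L, hL⟩ : ∃ L : AddSubgroup G, L = (nsmulAddMonoidHom b : G →+ G).ker := ⟨_, rfl⟩
    have e := hSB G T m hT (le_trans (by norm_num) hm8) L
    have e1 : ∑ h with h ∈ L, (r2 T h : ℝ) = ∑ g with b • g = 0, (r2 T g : ℝ) := by
      congr 1
      ext g
      simp [hL, AddMonoidHom.mem_ker]
    rw [e1, hL] at e
    refine e.trans ?_
    have e2 : (Nat.card (nsmulAddMonoidHom b : G →+ G).ker : ℝ) ≤ b := by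
      exact_mod_cast Nat.le_of_dvd hb0 (card_ker_dvd hco hN)
    have hb0' : (0 : ℝ) < b := by exact_mod_cast hb0
    have hP0' : (0 : ℝ) < (p ^ v : ℕ) := by exact_mod_cast pow_pos hp.pos _
    have hNr : (Fintype.card G : ℝ) = (p ^ v : ℕ) * b := by exact_mod_cast hN
    have e3 : (2 * (m : ℝ) + 1) ^ 2 * Nat.card (nsmulAddMonoidHom b : G →+ G).ker /
        Fintype.card G ≤ (2 * (m : ℝ) + 1) ^ 2 / (p ^ v : ℕ) := by
      rw [hNr, div_le_div_iff₀ (by positivity) hP0']
      have := mul_le_mul_of_nonneg_left e2 (show (0 : ℝ) ≤ (2 * m + 1) ^ 2 * (p ^ v : ℕ) by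
        positivity)
      nlinarith
    linarith
  -- conclusion
  have hp6 : 7 ≤ p := by
    rcases hp7 with h | h
    · omega
    · omega
  have hq : ((p - 1 : ℕ) : ℝ) = (p : ℝ) - 1 := by
    rw [Nat.cast_sub (by omega), Nat.cast_one]
  obtain ⟨P, hP⟩ : ∃ P : ℕ, P = p ^ v := ⟨_, rfl⟩
  rw [← hP] at h4 h5 hcon
  have hP1 : 1 ≤ P := by rw [hP]; exact Nat.one_le_pow _ _ hp.pos
  refine gp_arith ((p : ℝ) - 1) P m ?_ ?_ ?_ ?_ ?_
  · have : (7 : ℝ) ≤ p := by exact_mod_cast hp6
    linarith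
  · exact_mod_cast hm8
  · rcases hp7 with h | h
    · left
      constructor
      · have : (11 : ℝ) ≤ p := by exact_mod_cast h
        linarith
      · have : 11 ≤ P := by
          rw [hP]
          exact h.trans (Nat.le_self_pow hv0 p)
        exact_mod_cast this
    · right
      have h2v : 2 ≤ v := by
        rw [hv]
        apply (hp.pow_dvd_iff_le_factorization hN0).1
        rw [h.1]
        exact h.2
      have : 49 ≤ P := by
        rw [hP]
        calc 49 = 7 ^ 2 := by norm_num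
          _ = p ^ 2 := by rw [h.1]
          _ ≤ p ^ v := Nat.pow_le_pow_right hp.pos h2v
      exact_mod_cast this
  · have : (25 * P : ℝ) ≤ (2 * (p - 5 : ℕ) * m : ℕ) := by exact_mod_cast hcon
    push_cast at this
    rw [Nat.cast_sub (by omega)] at this
    push_cast at this
    linarith
  · -- main inequality
    have h2' : ((p : ℝ) - 1) * ∑ t with t ∈ Γ, ∑ g, (r2 T g : ℝ) *
        r2 T ((t : ZMod (Fintype.card G)).val • g) ≤
        K * (((p : ℝ) - 1) * (∑ g with b • g = 0, (r2 T g : ℝ) ^ 2) +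
        ∑ g with ¬ b • g = 0, (r2 T g : ℝ) * ∑ d : G with (p ^ v) • d = 0, (r2 T (g + d) : ℝ)) := by
      rw [← hq]
      exact_mod_cast h2
    have h3' : ∑ g with b • g = 0, (r2 T g : ℝ) ^ 2 ≤
        (2 * (m : ℝ) + 1) ^ 2 + 2 * ∑ g with b • g = 0, (r2 T g : ℝ) := by
      exact_mod_cast h3
    have h4' : ∑ g with ¬ b • g = 0, (r2 T g : ℝ) * ∑ d : G with (p ^ v) • d = 0,
        (r2 T (g + d) : ℝ) ≤ 2 * (2 * (m : ℝ) + 1) ^ 2 + ((P : ℝ) - 1) * (24 * m + 6) := by
      have : ((P - 1 : ℕ) : ℝ) = (P : ℝ) - 1 := by rw [Nat.cast_sub hP1, Nat.cast_one]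
      rw [← this, ← hP]
      exact_mod_cast h4
    have hp1 : (0 : ℝ) ≤ (p : ℝ) - 1 := by
      have : (7 : ℝ) ≤ p := by exact_mod_cast hp6
      linarith
    have hK0' : (0 : ℝ) < K := by exact_mod_cast hK0
    have h6 := mul_le_mul_of_nonneg_left h1 hp1
    have h7 := h6.trans h2'
    have h8 : (K : ℝ) * (((p : ℝ) - 1) * ((6 - 1 / 100) * m ^ 2)) ≤
        K * (((p : ℝ) - 1) * ((2 * (m : ℝ) + 1) ^ 2 +
          2 * ((2 * (m : ℝ) + 1) ^ 2 / P + 9 * m)) +
          (2 * (2 * (m : ℝ) + 1) ^ 2 + ((P : ℝ) - 1) * (24 * m + 6))) := by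
      calc (K : ℝ) * (((p : ℝ) - 1) * ((6 - 1 / 100) * m ^ 2))
          = ((p : ℝ) - 1) * ((6 - 1 / 100) * m ^ 2 * K) := by ring
        _ ≤ _ := h7
        _ ≤ _ := by
          apply mul_le_mul_of_nonneg_left _ hK0'.le
          apply add_le_add _ h4'
          apply mul_le_mul_of_nonneg_left _ hp1
          linarith
    exact le_of_mul_le_mul_left h8 hK0'

end

end Pool.Agent.H24.GW
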